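import Pool.Agent.Work.MP_8dbde4_lc.FK.PubLink

/-!
# FPC versus FP for all first-order reducts of the homogeneous C-relations

* The domain is the set `Word c` of the words `ℚ → K` which differ from `c` in finitely many
  places, `K` countable; `C z x y` says that `z` splits off from `x` and `y` first: this is the
  homogeneous C-relation with `card K` branches (`2 ≤ card K ≤ ω`).
* `Definable`: invariance under all automorphisms of the C-relation (first-order definability in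
  it).
* For every structure `𝔅` of finite signature with such relations (the C-relation itself need not
  be definable in `𝔅`) CSP(𝔅) is in FPC iff it is in FP, with explicit criteria.
-/

namespace Pool.Agent.Results.MP_8dbde4_lc.CRelationCSPs

open Pool.Agent.Work.MP_8dbde4_lc.TS (Sig Str CSP InFP InFPC)
open Pool.Agent.Work.MP_8dbde4_lc.Pub

theorem result :
    -- (1) question Q1, and the templates are reducts of countable finitely bounded homogeneous
    -- structures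
    (∀ (K : Type) [Countable K] (c : ℚ → K) (σ : Sig) (𝔅 : Str σ (Word c)),
      (∀ R, Definable (𝔅.rel R)) → (InFPC (CSP 𝔅) ↔ InFP (CSP 𝔅)) ∧ RFBH 𝔅) ∧
    -- (2) the classification for finite branching numbers; `ι` is an embedding of the binary tree
    (∀ (K : Type) [Finite K] (c : ℚ → K) (σ : Sig) (𝔅 : Str σ (Word c)),
      (∀ R, Definable (𝔅.rel R)) → ∀ ι : Word c₂ → Word c, Embeds ι →
      (InFP (CSP 𝔅) ↔ Const 𝔅 ∨
        (((∀ R, Horn₀ ((pull 𝔅 ι).rel R)) ∨ ∀ R, CombClosed ((pull 𝔅 ι).rel R)) ∧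
          ∀ (A : Type) [Finite A] (𝔄 : Str σ A), CSP 𝔅 A 𝔄 ↔ CSP (pull 𝔅 ι) A 𝔄))) ∧
    -- (3) the classification for the infinite branching number
    (∀ (c : ℚ → ℕ) (σ : Sig) (𝔅 : Str σ (Word c)), (∀ R, Definable (𝔅.rel R)) →
      ∀ ι : Word c₂ → Word c, Embeds ι →
      (InFP (CSP 𝔅) ↔ Const 𝔅 ∨
        (((∀ R, Horn₀ ((pull 𝔅 ι).rel R)) ∨ ∀ R, CombClosed ((pull 𝔅 ι).rel R)) ∧
          ∀ (A : Type) [Finite A] (𝔄 : Str σ A), CSP 𝔅 A 𝔄 ↔ CSP (pull 𝔅 ι) A 𝔄) ∨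
        (∀ R, Horn (𝔅.rel R)) ∨ ∀ R, StarClosed (𝔅.rel R))) ∧
    (∀ (K : Type) (c : ℚ → K), (∃ a b : K, a ≠ b) → ∃ ι : Word c₂ → Word c, Embeds ι) ∧
    -- (4) two branches (phylogeny languages)
    (∀ (c : ℚ → Bool) (σ : Sig) (𝔅 : Str σ (Word c)), (∀ R, Definable (𝔅.rel R)) →
      (InFP (CSP 𝔅) ↔ Const 𝔅 ∨ (∀ R, Horn₀ (𝔅.rel R)) ∨ ∀ R, CombClosed (𝔅.rel R))) ∧
    -- (5) the C-relations are homogeneous
    (∀ (K : Type) [Countable K] (c : ℚ → K) (X : Type) [Finite X] (v w : X → Word c),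
      (∀ x y, v x = v y ↔ w x = w y) →
      (∀ x y z, C (v z) (v x) (v y) ↔ C (w z) (w x) (w y)) →
      ∃ g : Word c ≃ Word c, (∀ x y z, C x y z ↔ C (g x) (g y) (g z)) ∧ ∀ x, g (v x) = w x) ∧
    -- (6) examples: the quartet relation alone is not in FPC, for all branching numbers; the
    -- relation `x, y, z are different and split at the same place` alone, and together with the
    -- C-relation, is not in FPC for finite branching numbers, at least three, but in FP for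
    -- infinitely many branches; two branches: rooted triples are in FP, rooted triples with the
    -- relation `the first split of x, y, z, u has an even number of them on each side` are not in
    -- FPC
    (∀ (K : Type) (c : ℚ → K), (∃ a b : K, a ≠ b) → ¬ InFPC (CSP (one (Q4 (c := c))))) ∧
    (∀ (K : Type) [Finite K] (c : ℚ → K), (∃ a b d : K, a ≠ b ∧ b ≠ d ∧ a ≠ d) →
      ¬ InFPC (CSP (one (N3 (c := c)))) ∧ ¬ InFPC (CSP (two (C3 (c := c)) (N3 (c := c))))) ∧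
    (∀ c : ℚ → ℕ,
      InFP (CSP (one (N3 (c := c)))) ∧ InFP (CSP (two (C3 (c := c)) (N3 (c := c))))) ∧
    (∀ c : ℚ → Bool,
      InFP (CSP (one (C3 (c := c)))) ∧ ¬ InFPC (CSP (two (C3 (c := c)) (Even4 (c := c))))) := by
  refine ⟨fun K _ c σ 𝔅 hA => ?_, fun K _ c σ 𝔅 hA ι hι => ?_, fun c σ 𝔅 hA ι hι => ?_,
    fun K c hK => Pool.Agent.Work.MP_8dbde4_lc.Bra.IOT_pf K c hK, fun c σ 𝔅 hA => ?_,
    fun K _ c X _ v w h h' => Pool.Agent.Work.MP_8dbde4_lc.Om.homog_K ⟨h, h'⟩,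
    fun K c hK => not_inFPC_q c hK,
    fun K _ c hK => ⟨not_inFPC_n c hK, not_inFPC_cn c hK⟩,
    fun c => ⟨inFP_n c, inFP_cn c⟩,
    fun c => ⟨inFP_c3 c, not_inFPC_even4 c⟩⟩
  · have hU : Pool.Agent.Work.MP_8dbde4_lc.Bra.InvU (c := c) 𝔅 :=
      Pool.Agent.Work.MP_8dbde4_lc.Om.invU_of_autInvK hA
    exact ⟨⟨Pool.Agent.Work.MP_8dbde4_lc.FK.main_of Pool.Agent.Work.MP_8dbde4_lc.FK.pk
      (Pool.Agent.Work.MP_8dbde4_lc.FK.allInv_iff.2 hU),
      Pool.Agent.Work.MP_8dbde4_lc.Phy.F2C_pf σ _⟩,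
      Pool.Agent.Work.MP_8dbde4_lc.Om.rfbh_K hU⟩
  · have hI : Pool.Agent.Work.MP_8dbde4_lc.FK.AllInv (c := c) 𝔅 :=
      Pool.Agent.Work.MP_8dbde4_lc.FK.allInv_iff.2
        (Pool.Agent.Work.MP_8dbde4_lc.Bra.invU_of_autInv hA)
    refine Iff.trans ⟨fun h => Pool.Agent.Work.MP_8dbde4_lc.FK.class_fin
      Pool.Agent.Work.MP_8dbde4_lc.FK.pk hI hι.1 hι.2
      (Pool.Agent.Work.MP_8dbde4_lc.Phy.F2C_pf σ _ h),
      Pool.Agent.Work.MP_8dbde4_lc.FK.fp_of_class Pool.Agent.Work.MP_8dbde4_lc.FK.pk hI⟩ ?_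
    exact or_congr Iff.rfl (and_congr (or_congr (forall_congr' fun R => (horn₀_iff _).symm)
      Iff.rfl) Iff.rfl)
  · have hI : Pool.Agent.Work.MP_8dbde4_lc.FK.AllInv (c := c) 𝔅 :=
      Pool.Agent.Work.MP_8dbde4_lc.FK.allInv_iff.2
        (Pool.Agent.Work.MP_8dbde4_lc.Om.invU_of_autInvK hA)
    refine Iff.trans ⟨fun h => Pool.Agent.Work.MP_8dbde4_lc.FK.class_w
      Pool.Agent.Work.MP_8dbde4_lc.FK.pk hI hι.1 hι.2
      (Pool.Agent.Work.MP_8dbde4_lc.Phy.F2C_pf σ _ h),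
      Pool.Agent.Work.MP_8dbde4_lc.FK.fp_of_class_w Pool.Agent.Work.MP_8dbde4_lc.FK.pk hI⟩ ?_
    exact or_congr Iff.rfl (or_congr (and_congr (or_congr
      (forall_congr' fun R => (horn₀_iff _).symm) Iff.rfl) Iff.rfl)
      (or_congr (forall_congr' fun R => (horn_iff _).symm) Iff.rfl))
  · refine ((Pool.Agent.Work.MP_8dbde4_lc.Full.main 𝔅 hA).2.1).trans ?_
    exact or_congr Iff.rfl (or_congr (forall_congr' fun R => (horn₀_iff _).symm) Iff.rfl)

end Pool.Agent.Results.MP_8dbde4_lc.CRelationCSPs
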