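import Pool.Agent.Work.MP_8dbde4_lc.HP.Final

/-!
# Anchored level languages: an exact equivalence for FP, FPC and polynomial time

For every level language `𝔅` (a structure on coloured rationals which is preserved by pp), the
constraint satisfaction problem of the anchored expansion of `𝔅` is in FP, in FPC, or in polynomial
time, if and only if the constraint satisfaction problem of the structure `levLetters 𝔅` on the
colours is.  If there are finitely many colours, then the latter is a finite structure.
-/

namespace Pool.Agent.Results.MP_8dbde4_lc.LevelAnchored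

open Pool.Agent.Work.MP_8dbde4_lc.TS
open Pool.Agent.Work.MP_8dbde4_lc.HP

theorem result (ℓ : Logic) (σ : Sig) (F : Type) [Nonempty F] (𝔅 : Str σ (ℚ × F))
    (h : IsLevel 𝔅) :
    ℓ.In (CSP (anchor 𝔅 (levLetters 𝔅))) ↔ ℓ.In (CSP (levLetters 𝔅)) :=
  in_anchor ℓ h

end Pool.Agent.Results.MP_8dbde4_lc.LevelAnchored
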