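import Pool.Agent.Work.MP_8dbde4_lc.Loc.Final
import Pool.Agent.Work.MP_8dbde4_lc.Tree.Example

/-!
# FPC versus FP for local languages over branching trees

* The domain is the set `Word c` of the words `ℚ → K` (`K` a finite set of letters) which differ
  from `c` in finitely many places, a tree with `K`-ary branching.
* `Inv`: the relations depend only on the splits of the entries of a tuple (which entries are
  equal, with which letters they split, which entries split off first).
* `IsLocal`: a tuple belongs to a relation as soon as each of its subtuples looks, at its first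
  split, like the same subtuple of some member of the relation. For example, all relations which
  are defined by conjunctions of first-split conditions on subtuples are local.
* For every invariant local structure `𝔅` in which the split relation `C(z; x, y)` is primitively
  positively definable: if CSP(𝔅) is in FPC then it is in FP; the criterion is `Crit`.
-/

namespace Pool.Agent.Results.MP_8dbde4_lc.LocalLanguages

open Pool.Agent.Work.MP_8dbde4_lc.TS Pool.Agent.Work.MP_8dbde4_lc.Loc
open Pool.Agent.Work.MP_8dbde4_lc.Tree (Word Lang DenseW RFBH RT LA)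

theorem result :
    -- (1) the implication of question Q1 for all invariant local structures in which the split
    -- relation is primitively positively definable
    (∀ (σ : Sig) (K : Type) [Finite K] (c : ℚ → K) (𝔅 : Str σ (Word c)), Inv 𝔅 → IsLocal 𝔅 →
      PP 𝔅 (CC (c := c)) → InFPC (CSP 𝔅) → InFP (CSP 𝔅)) ∧
    -- (2) the criterion: good steps imply FP, and otherwise the problem is not in FPC
    (∀ (σ : Sig) (K : Type) [Finite K] (c : ℚ → K) (𝔅 : Str σ (Word c)) (hB : Inv 𝔅),
      IsLocal 𝔅 → (Crit 𝔅 hB → InFP (CSP 𝔅)) ∧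
        (PP 𝔅 (CC (c := c)) → ¬ Crit 𝔅 hB → ¬ InFPC (CSP 𝔅))) ∧
    -- (3) the combinatorial form of the problem
    (∀ (σ : Sig) (K : Type) (c : ℚ → K) (𝔅 : Str σ (Word c)) (hB : Inv 𝔅), IsLocal 𝔅 →
      ∀ (A : Type) [Finite A] (𝔄 : Str σ A), CSP 𝔅 A 𝔄 ↔ Res (lang 𝔅 hB) 𝔄 Set.univ) ∧
    -- (4) the structures are countable reducts of finitely bounded homogeneous structures, if
    -- every letter is dense in `c`; there are such `c`
    (∀ (σ : Sig) (K : Type) [Finite K] (c : ℚ → K) (𝔅 : Str σ (Word c)), Inv 𝔅 → DenseW c →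
      RFBH 𝔅) ∧
    (∀ (K : Type) [Finite K] [Nonempty K], ∃ c : ℚ → K, DenseW c) ∧
    -- (5) structures whose relations are conjunctions of atomic formulas over a first-split
    -- language are invariant and local; this includes the first-split languages themselves
    (∀ (σ σ' : Sig) (K : Type) (c : ℚ → K) (𝔅 : Str σ (Word c)) (L : Lang σ' K),
      Conj 𝔅 (L.tree c) → Inv 𝔅 ∧ IsLocal 𝔅) ∧
    (∀ (σ : Sig) (K : Type) (c : ℚ → K) (L : Lang σ K), Conj (L.tree c) (L.tree c) ∧
      ∀ C : σ.S, Pool.Agent.Work.MP_8dbde4_lc.Tree.IsSplit L C → PP (L.tree c) (CC (c := c))) ∧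
    -- (6) examples: rooted triples are in FP; the split relation with a linear equation for the
    -- first split (letters in a finite abelian group) is not in FPC
    (∀ (K : Type) [Finite K] (c : ℚ → K), InFP (CSP ((RT K).tree c))) ∧
    (∀ (K : Type) [Finite K] [AddCommGroup K] [Nontrivial K] (c : ℚ → K),
      ¬ InFPC (CSP ((LA K).tree c))) :=
  ⟨fun _ _ _ _ _ hB hl hC h => final hB hl hC h,
    fun _ _ _ _ _ hB hl => ⟨crit_pos hB hl, fun hC hg => crit_neg hB hl hC hg⟩,
    fun _ _ _ _ hB hl A _ 𝔄 => csp_iff hB hl A 𝔄,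
    fun _ _ _ _ _ hB hc => rfbh hB hc,
    fun K _ _ => Pool.Agent.Work.MP_8dbde4_lc.Tree.DNS_pf K,
    fun _ _ _ _ _ _ h => ⟨inv_of_conj h, isLocal_of_conj h⟩,
    fun _ _ _ L => ⟨conj_refl (L.tree _), fun _ hC => pp_split hC⟩,
    fun K _ c => Pool.Agent.Work.MP_8dbde4_lc.Tree.POS_ok _ K _ c
      (Pool.Agent.Work.MP_8dbde4_lc.Tree.gs_RT K),
    fun K _ _ _ c => Pool.Agent.Work.MP_8dbde4_lc.Tree.NEG_ok _ K _ c _
      (Pool.Agent.Work.MP_8dbde4_lc.Tree.isSplit_LA K)
      (Pool.Agent.Work.MP_8dbde4_lc.Tree.not_gs_LA K)⟩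

end Pool.Agent.Results.MP_8dbde4_lc.LocalLanguages
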