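import Pool.Agent.Work.MP_8dbde4_lc.TS.Closure
import Pool.Agent.Work.MP_8dbde4_lc.TS.Example

/-!
# FPC versus FP for templates with totally symmetric polymorphisms

* If `𝔅` has totally symmetric polymorphisms of arbitrarily large arities, or is a Horn closure of
  such a language, and `CSP(𝔅)` is in FPC (or just in FPC on ordered structures, that is, in
  polynomial time), then `CSP(𝔅)` is in FP.
* Question Q1 has a positive answer for a template with disequality whose relations are Horn over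
  the union of sets of relations which glue and are preserved by injective binary operations,
  if it has a positive answer for all the parts.
-/

namespace Pool.Agent.Results.MP_8dbde4_lc.TotallySymmetric

open Pool.Agent.Work.MP_8dbde4_lc.TS

theorem result :
    -- (1) a class in FPC is in FPC on ordered structures
    (∀ (σ : Sig) (𝒦 : Class σ), InFPC 𝒦 → InFPCOrd 𝒦) ∧
    -- (2) the implication for templates with totally symmetric polymorphisms and for Horn closures
    (∀ (σ : Sig) (B : Type) (𝔅 : Str σ B), HasTS 𝔅 ∨ IsHornTS 𝔅 →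
      InFPCOrd (CSP 𝔅) → InFP (CSP 𝔅)) ∧
    -- (3) inheritance of the implication, with FPC on ordered structures
    (∀ (σ : Sig) (B : Type) (𝔅 : Str σ B) (m : ℕ) (P : Fin m → Set σ.S) (ne : σ.S),
      IsNe 𝔅 ne → (∀ i, HasInjOn 𝔅 (P i)) → Glues 𝔅 P → HornDefinable 𝔅 (⋃ i, P i) →
      (∀ i, InFPCOrd (CSP (𝔅.sub (insert ne (P i)))) → InFP (CSP (𝔅.sub (insert ne (P i))))) →
      InFPCOrd (CSP 𝔅) → InFP (CSP 𝔅)) ∧
    -- (4) inheritance of the implication, with FPC
    (∀ (σ : Sig) (B : Type) (𝔅 : Str σ B) (m : ℕ) (P : Fin m → Set σ.S) (ne : σ.S),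
      IsNe 𝔅 ne → (∀ i, HasInjOn 𝔅 (P i)) → Glues 𝔅 P → HornDefinable 𝔅 (⋃ i, P i) →
      (∀ i, InFPC (CSP (𝔅.sub (insert ne (P i)))) → InFP (CSP (𝔅.sub (insert ne (P i))))) →
      InFPC (CSP 𝔅) → InFP (CSP 𝔅)) := by
  refine ⟨fun σ 𝒦 h => h.ord, fun σ B 𝔅 h1 h2 => ?_, fun σ B 𝔅 m P ne h1 h2 h3 h4 h5 h6 => ?_,
    fun σ B 𝔅 m P ne h1 h2 h3 h4 h5 h6 => ?_⟩
  · rcases h1 with h1 | h1
    · exact inFP_of_inFPCOrd 𝔅 h1 h2
    · exact inFP_of_inFPCOrd_horn 𝔅 h1 h2
  · exact inFP_closure 𝔅 P h2 h3 ne h1 h4 (fun i => h5 i (inFPCOrd_sub 𝔅 h6))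
  · exact inFP_closure 𝔅 P h2 h3 ne h1 h4 (fun i => h5 i (inFPC_sub 𝔅 h6))

end Pool.Agent.Results.MP_8dbde4_lc.TotallySymmetric
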